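import Pool.Agent.Helper70.MPS.Count

/-!
The most-pivotal-site algorithm leaves, in expectation, a positive fraction of the sites of
the `n` by `n` box unqueried, for every initial distribution and every (randomised, history
dependent) rule for breaking ties.
-/

namespace Pool.Agent.Results.MP_01b476_pr.LinearSaving

open Pool.Agent.Helper70.MPS

/-- For every `n ≥ 4` and every most-pivotal-site algorithm `A` for the left-right crossing of
the `n` by `n` box of the triangular lattice, the expected number of queries is at most
`n ^ 2 - (9 / 26624) * (n - 4) ^ 2`. -/
theorem result (n : ℕ) (hn : 4 ≤ n)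
    (A : MostPivotal (Crossing (box n) leftSide (rightSide n))) :
    expectedQueries A ≤
      ENNReal.ofReal ((n : ℝ) ^ 2 - 9 / 26624 * ((n : ℝ) - 4) ^ 2) :=
  box_expected n hn A

end Pool.Agent.Results.MP_01b476_pr.LinearSaving
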